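import Mathlib
import Pool.Agent.H860R2.PP.Defs
import Pool.Agent.H860R2.PP.KEY
import Pool.Agent.H860R2.PP.All

set_option autoImplicit false
open MeasureTheory Set
open scoped RealInnerProductSpace

/-!
Minimal volume of polar projection bodies of origin-symmetric convex bodies, all dimensions:
`|K|^{n-1} |Π° K| ≥ (π / √e)^n / n!` (helper860 with helper27, 73, 155, 237, 251, 331, 369, 488, 503,
512, 617, 623, 704, 784, 796, 831, 839, 855, 926; uses the files of helper229 and of helper7 and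
their teams).
-/

namespace Pool.Agent.Results.MP_48ea53_gt.AllDimensions

/-- An origin-symmetric convex body in `ℝⁿ`. -/
def IsSymmBody {n : ℕ} (K : Set (EuclideanSpace ℝ (Fin n))) : Prop :=
  Convex ℝ K ∧ IsCompact K ∧ (interior K).Nonempty ∧ ∀ x ∈ K, -x ∈ K

/-- `vol_{n-1}(K | u^⊥)` for a unit vector `u`: the `(n-1)`-dimensional Lebesgue measure
(normalised Hausdorff measure) of the orthogonal projection of `K` to `u^⊥`. -/
noncomputable def projVol {n : ℕ} (K : Set (EuclideanSpace ℝ (Fin n)))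
    (u : EuclideanSpace ℝ (Fin n)) : ℝ :=
  (μHE[n - 1] ((fun x : EuclideanSpace ℝ (Fin n) => x - ⟪u, x⟫ • u) '' K)).toReal

/-- `P` is the projection body `Π K`: the convex body whose support function on the unit sphere
is `u ↦ vol_{n-1}(K | u^⊥)`. -/
def IsProjBody {n : ℕ} (K P : Set (EuclideanSpace ℝ (Fin n))) : Prop :=
  Convex ℝ P ∧ IsCompact P ∧ (interior P).Nonempty ∧
    ∀ u : EuclideanSpace ℝ (Fin n), ‖u‖ = 1 → sSup ((fun y => ⟪u, y⟫) '' P) = projVol K u

/-- The polar of a set. -/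
def polar {n : ℕ} (P : Set (EuclideanSpace ℝ (Fin n))) : Set (EuclideanSpace ℝ (Fin n)) :=
  {x | ∀ y ∈ P, ⟪x, y⟫ ≤ 1}

/-- `Φ(K) = |K|^{n-1} |Π° K|`, where `P = Π K`. -/
noncomputable def Phi {n : ℕ} (K P : Set (EuclideanSpace ℝ (Fin n))) : ℝ :=
  (volume K).toReal ^ (n - 1) * (volume (polar P)).toReal

/-- `c_n = inf Φ(K)` over origin-symmetric convex bodies in `ℝⁿ`. -/
noncomputable def c (n : ℕ) : ℝ :=
  sInf {t | ∃ K P : Set (EuclideanSpace ℝ (Fin n)), IsSymmBody K ∧ IsProjBody K P ∧ t = Phi K P}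

lemma exists_symmBody (n : ℕ) : ∃ K : Set (EuclideanSpace ℝ (Fin n)), IsSymmBody K := by
  refine ⟨Metric.closedBall 0 1, convex_closedBall _ _, isCompact_closedBall _ _, ?_, ?_⟩
  · exact ⟨0, Metric.ball_subset_interior_closedBall (by simp)⟩
  · intro x hx
    rw [mem_closedBall_zero_iff] at hx ⊢
    rwa [norm_neg]

/-- **Result.** For every `n ≥ 2`: every origin-symmetric convex body `K` in `ℝⁿ` has a projection
body, `|K|^{n-1} |Π° K| ≥ (π / √e)^n / n!`, and hence `c_n ≥ (π / √e)^n / n!`. -/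
theorem result (n : ℕ) (hn : 2 ≤ n) :
    (∀ K : Set (EuclideanSpace ℝ (Fin n)), IsSymmBody K → ∃ P, IsProjBody K P) ∧
    (∀ K P : Set (EuclideanSpace ℝ (Fin n)), IsSymmBody K → IsProjBody K P →
      (Real.pi / √(Real.exp 1)) ^ n / n.factorial ≤ Phi K P) ∧
    (Real.pi / √(Real.exp 1)) ^ n / n.factorial ≤ c n := by
  have hn0 : 0 < n := by omega
  have hex : ∀ K : Set (EuclideanSpace ℝ (Fin n)), IsSymmBody K → ∃ P, IsProjBody K P :=
    fun K hK => Pool.Agent.H860R2.PP.A_PEX n hn0 K hK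
  have hmain : ∀ K P : Set (EuclideanSpace ℝ (Fin n)), IsSymmBody K → IsProjBody K P →
      (Real.pi / √(Real.exp 1)) ^ n / n.factorial ≤ Phi K P := by
    intro K P hK hP
    have h1 := Pool.Agent.H860R2.PP.A_MAIN n hn0 K hK
    have h2 := Pool.Agent.H860R2.PP.A_PPO n hn0 K P hP
    have h3 : polar P = {x | Pool.Agent.H229R2.PB3.hPi K x ≤ 1} := h2
    unfold Phi
    rw [h3]
    exact h1
  refine ⟨hex, hmain, ?_⟩
  obtain ⟨K, hK⟩ := exists_symmBody n
  obtain ⟨P, hP⟩ := hex K hK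
  refine le_csInf ⟨_, K, P, hK, hP, rfl⟩ ?_
  rintro t ⟨K, P, hK, hP, rfl⟩
  exact hmain K P hK hP

end Pool.Agent.Results.MP_48ea53_gt.AllDimensions
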