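import Mathlib
import Pool.Agent.H229R2.PB3.All
import Pool.Agent.H229R2.PB3.CLO
import Pool.Agent.H229R2.PB3.CMB

set_option autoImplicit false
open MeasureTheory Set
open scoped RealInnerProductSpace

/-!
Minimal volume of polar projection bodies of origin-symmetric convex bodies in dimension 3
(helper229 with helper51, 52, 61, 66, 75, 89, 153, 158, 179, 189, 234, 265, 284, 287, 339, 418,
431, 470, 477, 488, 509, 534, 536, 553, 562, 575, 594, 615, 619, 708, 743, 794, 804, 854, 862,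
873, 879, 881, 896, 898, 950, 956, 965, 987).
-/

namespace Pool.Agent.Results.MP_48ea53_gt.DimThree

/-- An origin-symmetric convex body in `ℝⁿ`. -/
def IsSymmBody {n : ℕ} (K : Set (EuclideanSpace ℝ (Fin n))) : Prop :=
  Convex ℝ K ∧ IsCompact K ∧ (interior K).Nonempty ∧ ∀ x ∈ K, -x ∈ K

/-- `vol_{n-1}(K | u^⊥)` for a unit vector `u`: the `(n-1)`-dimensional Lebesgue measure
(normalised Hausdorff measure) of the orthogonal projection of `K` to `u^⊥`. -/
noncomputable def projVol {n : ℕ} (K : Set (EuclideanSpace ℝ (Fin n)))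
    (u : EuclideanSpace ℝ (Fin n)) : ℝ :=
  (μHE[n - 1] ((fun x : EuclideanSpace ℝ (Fin n) => x - ⟪u, x⟫ • u) '' K)).toReal

/-- `P` is the projection body `Π K`: the convex body whose support function on the unit sphere
is `u ↦ vol_{n-1}(K | u^⊥)`. -/
def IsProjBody {n : ℕ} (K P : Set (EuclideanSpace ℝ (Fin n))) : Prop :=
  Convex ℝ P ∧ IsCompact P ∧ (interior P).Nonempty ∧
    ∀ u : EuclideanSpace ℝ (Fin n), ‖u‖ = 1 → sSup ((fun y => ⟪u, y⟫) '' P) = projVol K u

/-- The polar of a set. -/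
def polar {n : ℕ} (P : Set (EuclideanSpace ℝ (Fin n))) : Set (EuclideanSpace ℝ (Fin n)) :=
  {x | ∀ y ∈ P, ⟪x, y⟫ ≤ 1}

/-- `Φ(K) = |K|^{n-1} |Π° K|`, where `P = Π K`. -/
noncomputable def Phi {n : ℕ} (K P : Set (EuclideanSpace ℝ (Fin n))) : ℝ :=
  (volume K).toReal ^ (n - 1) * (volume (polar P)).toReal

/-- `c_n = inf Φ(K)` over origin-symmetric convex bodies in `ℝⁿ`. -/
noncomputable def c (n : ℕ) : ℝ :=
  sInf {t | ∃ K P : Set (EuclideanSpace ℝ (Fin n)), IsSymmBody K ∧ IsProjBody K P ∧ t = Phi K P}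

/-- Origin-centred parallelepipeds: linear images of the cube `[-1,1]³`. -/
def IsParallelepiped (K : Set (EuclideanSpace ℝ (Fin 3))) : Prop :=
  ∃ T : EuclideanSpace ℝ (Fin 3) ≃ₗ[ℝ] EuclideanSpace ℝ (Fin 3), K = T '' {x | ∀ i, |x i| ≤ 1}

open Pool.Agent.H229R2.PB3 (slab dt hPi)

lemma polar_eq (K P : Set (EuclideanSpace ℝ (Fin 3))) (h : IsProjBody K P) :
    polar P = {x | hPi K x ≤ 1} := Pool.Agent.H229R2.PB3.T_PPO K P h

lemma slab_par (m : Fin 3 → EuclideanSpace ℝ (Fin 3)) (hd : dt (m 0) (m 1) (m 2) ≠ 0) :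
    IsParallelepiped (slab m fun _ => 1) := by
  let M : EuclideanSpace ℝ (Fin 3) →ₗ[ℝ] EuclideanSpace ℝ (Fin 3) :=
    { toFun := fun x => WithLp.toLp 2 (fun i => ⟪m i, x⟫)
      map_add' := by intro x y; ext i; simp [inner_add_right]
      map_smul' := by intro t x; ext i; simp [inner_smul_right] }
  have hinj : Function.Injective M := by
    rw [← LinearMap.ker_eq_bot, LinearMap.ker_eq_bot']
    intro x hx
    have h1 : Matrix.toLin' (Pool.Agent.H229R2.PB3.FIN.mat m) (WithLp.ofLp x) = 0 := by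
      rw [← Pool.Agent.H229R2.PB3.FIN.T_eq]
      funext i
      exact congrArg (fun z : EuclideanSpace ℝ (Fin 3) => z i) hx
    have h2 : (Pool.Agent.H229R2.PB3.FIN.mat m).det ≠ 0 := by
      rw [Pool.Agent.H229R2.PB3.FIN.det_mat]; exact hd
    rw [Matrix.toLin'_apply] at h1
    have h3 := Matrix.eq_zero_of_mulVec_eq_zero h2 h1
    ext i
    exact congrFun h3 i
  let e := LinearEquiv.ofInjectiveEndo M hinj
  refine ⟨e.symm, ?_⟩
  ext x
  simp only [slab, mem_ofPred_eq, mem_image]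
  constructor
  · intro h
    exact ⟨e x, fun i => h i, e.symm_apply_apply x⟩
  · rintro ⟨y, hy, rfl⟩ i
    have h1 : (e (e.symm y)) i = y i := by rw [e.apply_symm_apply]
    have h2 : (e (e.symm y)) i = ⟪m i, e.symm y⟫ := rfl
    rw [← h2, h1]
    exact hy i

lemma par_slab (K : Set (EuclideanSpace ℝ (Fin 3))) (h : IsParallelepiped K) :
    ∃ a b c : EuclideanSpace ℝ (Fin 3), dt a b c ≠ 0 ∧ K = slab ![a, b, c] fun _ => 1 := by
  obtain ⟨T, rfl⟩ := h
  let m : Fin 3 → EuclideanSpace ℝ (Fin 3) := fun i =>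
    WithLp.toLp 2 (fun j => T.symm (EuclideanSpace.single j 1) i)
  have hm : ∀ i x, ⟪m i, x⟫ = T.symm x i := by
    intro i x
    have hx : x = ∑ j, x j • EuclideanSpace.single j (1 : ℝ) := by
      ext k
      simp [Pi.single_apply]
    conv_rhs => rw [hx, map_sum]
    simp only [map_smul, WithLp.ofLp_sum, Finset.sum_apply, PiLp.smul_apply, smul_eq_mul, m,
      PiLp.inner_apply]
    apply Finset.sum_congr rfl
    intro j _
    simp
  have hdet : dt (m 0) (m 1) (m 2) ≠ 0 := by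
    rw [← Pool.Agent.H229R2.PB3.FIN.det_mat]
    intro h0
    obtain ⟨v, hv, hv0⟩ := Matrix.exists_mulVec_eq_zero_iff.2 h0
    apply hv
    have h1 : T.symm (WithLp.toLp 2 v) = 0 := by
      ext i
      rw [← hm]
      have h2 := Pool.Agent.H229R2.PB3.FIN.T_eq m (WithLp.toLp 2 v)
      rw [Matrix.toLin'_apply] at h2
      have h3 := congrFun (h2.trans hv0) i
      exact h3
    have h4 : (WithLp.toLp 2 v : EuclideanSpace ℝ (Fin 3)) = 0 := by
      simpa using h1
    funext i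
    exact congrArg (fun z : EuclideanSpace ℝ (Fin 3) => z i) h4
  refine ⟨m 0, m 1, m 2, hdet, ?_⟩
  have hmm : ![m 0, m 1, m 2] = m := by
    funext i; fin_cases i <;> rfl
  rw [hmm]
  ext x
  simp only [slab, mem_ofPred_eq, mem_image, hm]
  constructor
  · rintro ⟨y, hy, rfl⟩ i
    rw [T.symm_apply_apply]
    exact hy i
  · intro hx
    exact ⟨T.symm x, hx, T.apply_symm_apply x⟩

lemma cube_symm : IsSymmBody ({x | ∀ i, |x i| ≤ 1} : Set (EuclideanSpace ℝ (Fin 3))) := by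
  have hpar : IsParallelepiped ({x | ∀ i, |x i| ≤ 1} : Set (EuclideanSpace ℝ (Fin 3))) :=
    ⟨LinearEquiv.refl ℝ _, by simp⟩
  obtain ⟨a, b, c, hd, hK⟩ := par_slab _ hpar
  have hsp : Pool.Agent.H229R2.PB3.Spans ![a, b, c] := by
    intro x hx
    have h1 : ∀ t : ℝ, t • x ∈ ({x | ∀ i, |x i| ≤ 1} : Set (EuclideanSpace ℝ (Fin 3))) := by
      intro t
      rw [hK]
      intro k
      rw [inner_smul_right, hx k]
      simp
    ext i
    by_contra h
    have h2 := h1 (2 / x i) i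
    simp only [PiLp.smul_apply, smul_eq_mul] at h2
    rw [div_mul_cancel₀ _ h] at h2
    norm_num at h2
  obtain ⟨h1, h2, h3, h4⟩ := Pool.Agent.H229R2.PB3.T_CPT (Fin 3) ![a, b, c] (fun _ => 1) hsp
  rw [hK]
  exact ⟨h2, h1, ⟨0, h4 fun _ => one_pos⟩, h3⟩

/-- **Dimension three.** `c₃ = 4/3 = 2³/3!`; every origin-symmetric convex body `K` in `ℝ³` has a
projection body `P`, `|K|² |P°| ≥ 4/3`, and equality holds exactly for parallelepipeds. -/
theorem result :
    c 3 = 4 / 3 ∧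
    ∀ K : Set (EuclideanSpace ℝ (Fin 3)), IsSymmBody K →
      (∃ P, IsProjBody K P) ∧
      ∀ P, IsProjBody K P → 4 / 3 ≤ Phi K P ∧ (Phi K P = 4 / 3 ↔ IsParallelepiped K) := by
  have hCLO := Pool.Agent.H229R2.PB3.T_CLO Pool.Agent.H229R2.PB3.T_CPT
  have hCMB := Pool.Agent.H229R2.PB3.T_CMB
  have hmain := Pool.Agent.H229R2.PB3.all_MAIN hCLO
  have huni := Pool.Agent.H229R2.PB3.all_UNI hCLO hCMB
  have hpar := Pool.Agent.H229R2.PB3.all_PAR
  have hpex := Pool.Agent.H229R2.PB3.all_PEX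
  have key : ∀ K : Set (EuclideanSpace ℝ (Fin 3)), IsSymmBody K →
      (∃ P, IsProjBody K P) ∧
      ∀ P, IsProjBody K P → 4 / 3 ≤ Phi K P ∧ (Phi K P = 4 / 3 ↔ IsParallelepiped K) := by
    intro K hK
    refine ⟨hpex K hK, fun P hP => ?_⟩
    have e : Phi K P = (volume K).toReal ^ 2 *
        (volume {x : EuclideanSpace ℝ (Fin 3) | hPi K x ≤ 1}).toReal := by
      rw [Phi, polar_eq K P hP]
    rw [e]
    refine ⟨hmain K hK, fun h => ?_, fun h => ?_⟩
    · obtain ⟨m, hd, rfl⟩ := huni K hK h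
      exact slab_par m hd
    · obtain ⟨a, b, c, hd, rfl⟩ := par_slab K h
      exact hpar a b c hd
  refine ⟨?_, key⟩
  have hcube : IsParallelepiped ({x | ∀ i, |x i| ≤ 1} : Set (EuclideanSpace ℝ (Fin 3))) :=
    ⟨LinearEquiv.refl ℝ _, by simp⟩
  obtain ⟨⟨P, hP⟩, h2⟩ := key _ cube_symm
  have h3 := ((h2 P hP).2).2 hcube
  apply le_antisymm
  · apply csInf_le
    · refine ⟨4 / 3, ?_⟩
      rintro t ⟨K, Q, hK, hQ, rfl⟩
      exact ((key K hK).2 Q hQ).1
    · exact ⟨_, P, cube_symm, hP, h3.symm⟩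
  · apply le_csInf
    · exact ⟨_, _, P, cube_symm, hP, rfl⟩
    · rintro t ⟨K, Q, hK, hQ, rfl⟩
      exact ((key K hK).2 Q hQ).1

end Pool.Agent.Results.MP_48ea53_gt.DimThree
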