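import Mathlib
import Pool.Agent.H860R2.PP.Defs
import Pool.Agent.H860R2.PP.All
import Pool.Agent.H860R2.PP.VR

set_option autoImplicit false
open MeasureTheory Set
open scoped RealInnerProductSpace

/-!
Polar projection bodies of origin-symmetric convex bodies, all dimensions: the conjectured sharp
inequality `|K|^{n-1} |Π° K| ≥ 2^n / n!` holds for all bodies whose volume ratio is at most
`(π / (2 √e))` (to the power `n`) times that of the cube (helper860 with helper27, 73, 155, 237,
251, 331, 369, 488, 503, 512, 617, 623, 704, 784, 796, 831, 839, 855, 926; uses the files of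
helper229 and his team).
-/

namespace Pool.Agent.Results.MP_48ea53_gt.SmallVolumeRatio

/-- An origin-symmetric convex body in `ℝⁿ`. -/
def IsSymmBody {n : ℕ} (K : Set (EuclideanSpace ℝ (Fin n))) : Prop :=
  Convex ℝ K ∧ IsCompact K ∧ (interior K).Nonempty ∧ ∀ x ∈ K, -x ∈ K

/-- `vol_{n-1}(K | u^⊥)` for a unit vector `u`: the `(n-1)`-dimensional Lebesgue measure
(normalised Hausdorff measure) of the orthogonal projection of `K` to `u^⊥`. -/
noncomputable def projVol {n : ℕ} (K : Set (EuclideanSpace ℝ (Fin n)))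
    (u : EuclideanSpace ℝ (Fin n)) : ℝ :=
  (μHE[n - 1] ((fun x : EuclideanSpace ℝ (Fin n) => x - ⟪u, x⟫ • u) '' K)).toReal

/-- `P` is the projection body `Π K`: the convex body whose support function on the unit sphere
is `u ↦ vol_{n-1}(K | u^⊥)`. -/
def IsProjBody {n : ℕ} (K P : Set (EuclideanSpace ℝ (Fin n))) : Prop :=
  Convex ℝ P ∧ IsCompact P ∧ (interior P).Nonempty ∧
    ∀ u : EuclideanSpace ℝ (Fin n), ‖u‖ = 1 → sSup ((fun y => ⟪u, y⟫) '' P) = projVol K u

/-- The polar of a set. -/
def polar {n : ℕ} (P : Set (EuclideanSpace ℝ (Fin n))) : Set (EuclideanSpace ℝ (Fin n)) :=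
  {x | ∀ y ∈ P, ⟪x, y⟫ ≤ 1}

/-- `Φ(K) = |K|^{n-1} |Π° K|`, where `P = Π K`. -/
noncomputable def Phi {n : ℕ} (K P : Set (EuclideanSpace ℝ (Fin n))) : ℝ :=
  (volume K).toReal ^ (n - 1) * (volume (polar P)).toReal

/-- Origin-centred ellipsoids: images of the closed unit ball under invertible linear maps. -/
def IsEllipsoid {n : ℕ} (D : Set (EuclideanSpace ℝ (Fin n))) : Prop :=
  ∃ S : EuclideanSpace ℝ (Fin n) ≃L[ℝ] EuclideanSpace ℝ (Fin n), D = S '' Metric.closedBall 0 1

/-- **Result.** Let `n ≥ 2`, `K` an origin-symmetric convex body in `ℝⁿ`, `D ⊆ K` an ellipsoid and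
`B` the unit ball. Then `Φ(K) ≥ (π/√e)^n (2^n/n!) |D| / (|B| |K|)`. Hence the conjectured sharp
inequality `Φ(K) ≥ 2^n/n!` holds if `|B| |K| ≤ (π/√e)^n |D|`, and strictly if this is strict. -/
theorem result (n : ℕ) (hn : 2 ≤ n) (K P D : Set (EuclideanSpace ℝ (Fin n)))
    (hK : IsSymmBody K) (hP : IsProjBody K P) (hD : IsEllipsoid D) (hDK : D ⊆ K) :
    (Real.pi / √(Real.exp 1)) ^ n * (2 ^ n / n.factorial) * (volume D).toReal ≤
      Phi K P * ((volume (Metric.closedBall (0 : EuclideanSpace ℝ (Fin n)) 1)).toReal *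
        (volume K).toReal) ∧
    ((volume (Metric.closedBall (0 : EuclideanSpace ℝ (Fin n)) 1)).toReal * (volume K).toReal ≤
      (Real.pi / √(Real.exp 1)) ^ n * (volume D).toReal → 2 ^ n / n.factorial ≤ Phi K P) ∧
    ((volume (Metric.closedBall (0 : EuclideanSpace ℝ (Fin n)) 1)).toReal * (volume K).toReal <
      (Real.pi / √(Real.exp 1)) ^ n * (volume D).toReal → 2 ^ n / n.factorial < Phi K P) := by
  have hn0 : 0 < n := by omega
  obtain ⟨S, rfl⟩ := hD
  set B : Set (EuclideanSpace ℝ (Fin n)) := Metric.closedBall 0 1 with hBdef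
  set T : EuclideanSpace ℝ (Fin n) ≃L[ℝ] EuclideanSpace ℝ (Fin n) := S.symm with hT
  have hB : B ⊆ T '' K := by
    intro x hx
    exact ⟨S x, hDK ⟨x, hx, rfl⟩, by simp [hT]⟩
  have hTS : T '' (S '' B) = B := by
    rw [← image_comp]
    have : (⇑T ∘ ⇑S) = id := by
      funext x; simp [hT]
    rw [this, image_id]
  have hv1 : volume B = ENNReal.ofReal |(T : EuclideanSpace ℝ (Fin n) →L[ℝ]
      EuclideanSpace ℝ (Fin n)).det| * volume (S '' B) := by
    have h := (volume : Measure (EuclideanSpace ℝ (Fin n))).addHaar_image_continuousLinearEquiv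
      T (S '' B)
    rw [hTS] at h
    exact h
  have hv2 : volume (T '' K) = ENNReal.ofReal |(T : EuclideanSpace ℝ (Fin n) →L[ℝ]
      EuclideanSpace ℝ (Fin n)).det| * volume K :=
    (volume : Measure (EuclideanSpace ℝ (Fin n))).addHaar_image_continuousLinearEquiv T K
  set d : ℝ := |(T : EuclideanSpace ℝ (Fin n) →L[ℝ] EuclideanSpace ℝ (Fin n)).det| with hd
  have hd0 : 0 ≤ d := abs_nonneg _
  have hv1' : (volume B).toReal = d * (volume (S '' B)).toReal := by
    rw [hv1, ENNReal.toReal_mul, ENNReal.toReal_ofReal hd0]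
  have hv2' : (volume (T '' K)).toReal = d * (volume K).toReal := by
    rw [hv2, ENNReal.toReal_mul, ENNReal.toReal_ofReal hd0]
  have hmain := Pool.Agent.H860R2.PP.vr_main hn0 K hK T hB
  have hpol : polar P = {x | Pool.Agent.H229R2.PB3.hPi K x ≤ 1} :=
    Pool.Agent.H860R2.PP.A_PPO n hn0 K P hP
  have hPhi : (2 * Real.pi / √(Real.exp 1)) ^ n / (n.factorial * (volume (T '' K)).toReal) ≤
      Phi K P := by
    unfold Phi
    rw [hpol]
    exact hmain
  obtain ⟨-, hVK, hVT, -⟩ := Pool.Agent.H860R2.PP.A_INV n hn0 K hK T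
  change 0 < (volume K).toReal at hVK
  change 0 < (volume (T '' K)).toReal at hVT
  have hdpos : 0 < d := by
    rcases hd0.lt_or_eq with h | h
    · exact h
    · rw [hv2', ← h] at hVT
      simp at hVT
  set k : ℝ := (volume K).toReal with hk
  set D : ℝ := (volume (S '' B)).toReal with hDdef
  set b : ℝ := (volume B).toReal with hb
  set a : ℝ := (Real.pi / √(Real.exp 1)) ^ n with ha
  have ha0 : 0 < a := by positivity
  have hf : (0 : ℝ) < n.factorial := by positivity
  have hbpos : 0 < b := by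
    rw [hb]
    refine ENNReal.toReal_pos ?_ ?_
    · exact (Metric.measure_closedBall_pos volume _ one_pos).ne'
    · exact (isCompact_closedBall _ _).measure_lt_top.ne
  have hDpos : 0 < D := by
    have : b = d * D := hv1'
    rw [this] at hbpos
    exact pos_of_mul_pos_right hbpos hdpos.le |> fun h => h
  have e1 : (2 * Real.pi / √(Real.exp 1)) ^ n = 2 ^ n * a := by
    rw [ha, ← mul_pow, mul_div_assoc]
  have hge : a * (2 ^ n / n.factorial) * D ≤ Phi K P * (b * k) := by
    rw [e1, hv2', div_le_iff₀ (by positivity)] at hPhi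
    have h1 : a * (2 ^ n / n.factorial) * D = (2 ^ n * a) * (D / n.factorial) := by ring
    rw [h1]
    calc (2 ^ n * a) * (D / n.factorial) ≤ (Phi K P * (n.factorial * (d * k))) * (D / n.factorial) :=
          mul_le_mul_of_nonneg_right hPhi (by positivity)
      _ = Phi K P * (d * D * k) := by field_simp
      _ = Phi K P * (b * k) := by rw [hv1']
  refine ⟨hge, fun h => ?_, fun h => ?_⟩
  · have h2 : (2 ^ n / n.factorial) * (b * k) ≤ Phi K P * (b * k) := by
      refine le_trans ?_ hge
      have h3 : (0 : ℝ) ≤ 2 ^ n / n.factorial := by positivity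
      calc (2 ^ n / n.factorial) * (b * k) ≤ (2 ^ n / n.factorial) * (a * D) :=
            mul_le_mul_of_nonneg_left h h3
        _ = a * (2 ^ n / n.factorial) * D := by ring
    exact le_of_mul_le_mul_right h2 (by positivity)
  · have h2 : (2 ^ n / n.factorial) * (b * k) < Phi K P * (b * k) := by
      refine lt_of_lt_of_le ?_ hge
      have h3 : (0 : ℝ) < 2 ^ n / n.factorial := by positivity
      calc (2 ^ n / n.factorial) * (b * k) < (2 ^ n / n.factorial) * (a * D) :=
            mul_lt_mul_of_pos_left h h3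
        _ = a * (2 ^ n / n.factorial) * D := by ring
    exact lt_of_mul_lt_mul_right h2 (by positivity)

end Pool.Agent.Results.MP_48ea53_gt.SmallVolumeRatio
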